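import Pool.Agent.helper88.T8.Spec
import Pool.Agent.helper72.T6.WPC

set_option autoImplicit false

/-! Row WP8 of project T8: the count for one pair, one class and one box (model: WPC of T6). -/

namespace Pool.Agent.T8

open Finset NumberField Pool.Agent.helper3.FT Pool.Agent.helper47.RA Pool.Agent.T5 Pool.Agent.T6 Pool.Agent.T7
open scoped nonZeroDivisors

/-- the shifted coordinates are small -/
theorem WP8_small {E m₀ m' m : ℤ} {L : ℕ} {a : ℝ} (hE : 0 < E) (hm : m = m₀ + E * m')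
    (h : |(m : ℝ) - a| + 3 * E ≤ E * (L : ℝ)) : |((m' - round ((a - m₀) / (E : ℝ)) : ℤ) : ℝ)| ≤ L := by
  have hE' : (0 : ℝ) < E := by exact_mod_cast hE
  have h1 := abs_sub_round ((a - m₀) / (E : ℝ))
  have h2 : (m' : ℝ) = ((m : ℝ) - m₀) / E := by
    rw [eq_div_iff hE'.ne', hm]
    push_cast
    ring
  have h3 : ((m' - round ((a - m₀) / (E : ℝ)) : ℤ) : ℝ) =
      ((m : ℝ) - a) / E + ((a - m₀) / (E : ℝ) - (round ((a - m₀) / (E : ℝ)) : ℝ)) := by
    push_cast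
    rw [h2]
    ring
  have h4 : |((m : ℝ) - a) / E| ≤ (L : ℝ) - 3 := by
    rw [abs_div, abs_of_pos hE', div_le_iff₀ hE']
    nlinarith
  rw [h3]
  refine (abs_add_le _ _).trans ?_
  linarith

/-- the integers in a half open interval -/
theorem WP8_int (s : Finset ℤ) (u w : ℝ) (hw : 0 ≤ w) (hs : ∀ z ∈ s, u < (z : ℝ) ∧ (z : ℝ) ≤ u + w) : (s.card : ℝ) ≤ w + 1 := by
  have h1 : s ⊆ Ioc ⌊u⌋ ⌊u + w⌋ := by
    intro z hz
    obtain ⟨h2, h3⟩ := hs z hz
    refine mem_Ioc.2 ⟨?_, Int.le_floor.2 h3⟩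
    have h4 : ((⌊u⌋ : ℤ) : ℝ) < z := (Int.floor_le u).trans_lt h2
    exact_mod_cast h4
  have h5 := card_le_card h1
  rw [Int.card_Ioc] at h5
  have h6 : ((⌊u + w⌋ - ⌊u⌋).toNat : ℝ) ≤ w + 1 := by
    have h7 : ((⌊u + w⌋ - ⌊u⌋).toNat : ℤ) = max (⌊u + w⌋ - ⌊u⌋) 0 := Int.toNat_eq_max _
    have h8 : (((⌊u + w⌋ - ⌊u⌋).toNat : ℤ) : ℝ) ≤ w + 1 := by
      rw [h7]
      push_cast
      have h9 := Int.floor_le (u + w)
      have h10 := Int.lt_floor_add_one u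
      exact max_le (by linarith) (by linarith)
    exact_mod_cast h8
  have h11 : (s.card : ℝ) ≤ ((⌊u + w⌋ - ⌊u⌋).toNat : ℝ) := by exact_mod_cast h5
  linarith

theorem WP8 (hWCL : WCL_stmt) (hWFJ : WFJ_stmt) (hWWY : WWY_stmt) : WP8_stmt := by
  classical
  obtain ⟨C₀, hC₀, hW⟩ := hWWY
  refine ⟨450 + 4 * √C₀, by have := Real.sqrt_nonneg C₀; linarith, ?_⟩
  intro n k er es hn hk her hes hnk hrs hnkr
  obtain ⟨α, β, γ, hres, hcl⟩ := hWCL n k er es hn hk her hes hnk hrs hnkr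
  refine ⟨α, β, γ, hres, ?_⟩
  intro x L T a b z₀ V F hL hT hV hTV hF
  obtain ⟨m₀, g₀, c₃, c₄, c₅, hm0, hm1, hg0, hg1, ht⟩ := hcl x
  have hn0 : (0 : ℝ) < n := by exact_mod_cast hn
  have hk0 : (0 : ℝ) < k := by exact_mod_cast hk
  have her0 : (0 : ℝ) < er := by exact_mod_cast her
  have hes0 : (0 : ℝ) < es := by exact_mod_cast hes
  have hT0 : (0 : ℝ) < T := by exact_mod_cast hT
  have hT1 : (1 : ℝ) ≤ T := by exact_mod_cast hT
  have hL0 : (1 : ℝ) ≤ L := by exact_mod_cast hL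
  set Q : ℝ := (n : ℝ) ^ 3 * k * es * (er : ℝ) ^ 2 with hQ
  have hQ0 : 0 < Q := by positivity
  have hE0 : (0 : ℤ) < er * es := by positivity
  set a₀ : ℤ := round ((a - m₀) / (((er * es : ℤ)) : ℝ)) with ha₀
  set b₀ : ℤ := round ((b - g₀) / (((er * es : ℤ)) : ℝ)) with hb₀
  set q : ℝ := (es : ℝ) / ((n : ℝ) ^ 3 * k) with hq
  set d₃ : ℝ := c₃ + q * (2 * α * a₀ + β * b₀) with hd₃
  set d₄ : ℝ := c₄ + q * (β * a₀ + 2 * γ * b₀) with hd₄
  set d₅ : ℝ := c₅ + q * (α * a₀ ^ 2 + β * a₀ * b₀ + γ * b₀ ^ 2) + c₃ * a₀ + c₄ * b₀ with hd₅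
  have ht' : ∀ t : Tpl, ∃ m' g' z' : ℤ, t ∈ F → t.2.1 = m₀ + er * es * (m' + a₀) ∧
      t.2.2.1 = g₀ + er * es * (g' + b₀) ∧ (|(m' : ℝ)| ≤ L ∧ |(g' : ℝ)| ≤ L) ∧ (t.2.2.2 : ℝ) / Q =
          q * (α * m' ^ 2 + β * m' * g' + γ * g' ^ 2) + d₃ * m' + d₄ * g' + d₅ + z' := by
    intro t
    by_cases h : t ∈ F
    · obtain ⟨a1, a2, a3, a4, a5, -⟩ := hF t h
      obtain ⟨m', g', e1, e2, z', e3⟩ := ht t a1 a2 a3
      refine ⟨m' - a₀, g' - b₀, z', fun _ => ⟨?_, ?_, ⟨?_, ?_⟩, ?_⟩⟩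
      · rw [e1]; ring
      · rw [e2]; ring
      · exact WP8_small hE0 e1 (by push_cast; exact a4)
      · exact WP8_small hE0 e2 (by push_cast; exact a5)
      · rw [e3, hd₃, hd₄, hd₅]
        push_cast
        ring
    · exact ⟨0, 0, 0, fun h' => absurd h' h⟩
  choose mm gg zz hh using ht'
  have key : ∀ t ∈ F, ∀ t' ∈ F, mm t = mm t' → gg t = gg t' → zz t = zz t' → t = t' := by
    intro t htF t' htF' he1 he2 he3
    obtain ⟨b1, b2, -, b3⟩ := hh t htF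
    obtain ⟨b1', b2', -, b3'⟩ := hh t' htF'
    obtain ⟨-, a2, -⟩ := hF t htF
    obtain ⟨-, a2', -⟩ := hF t' htF'
    have h1 : (t.2.2.2 : ℝ) / Q = (t'.2.2.2 : ℝ) / Q := by
      rw [b3, b3', he1, he2, he3]
    have h4 : (t.2.2.2 : ℝ) = t'.2.2.2 := by
      rwa [div_left_inj' hQ0.ne'] at h1
    have h5 : t.2.2.2 = t'.2.2.2 := by exact_mod_cast h4
    refine Prod.ext (a2.trans a2'.symm) (Prod.ext ?_ (Prod.ext ?_ h5))
    · rw [b1, b1', he1]
    · rw [b2, b2', he2]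
  have hS0' : 0 ≤ ∑ h ∈ Ico 1 T, √((nearPts L L ((h * es : ℕ) * α / ((n : ℝ) ^ 3 * k)) ((h * es : ℕ) * β / ((n : ℝ) ^ 3 * k))
          ((h * es : ℕ) * γ / ((n : ℝ) ^ 3 * k))).card : ℝ) := sum_nonneg fun _ _ => Real.sqrt_nonneg _
  have hsC : 0 ≤ √C₀ := Real.sqrt_nonneg _
  rcases hTV with hT1' | hTV
  · -- the trivial count
    subst hT1'
    have hfib : ∀ i ∈ F.image (fun t : Tpl => (mm t, gg t)), (F.filter (fun t => (mm t, gg t) = i)).card ≤ ⌊V / Q + 1⌋₊ := by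
      intro i _
      refine Nat.le_floor ?_
      have hinj : Set.InjOn zz (F.filter (fun t => (mm t, gg t) = i) : Set Tpl) := by
        intro t ht1 t' ht2 he
        rw [Finset.mem_coe, mem_filter] at ht1 ht2
        have h1 := ht1.2.trans ht2.2.symm
        exact key t ht1.1 t' ht2.1 (congrArg Prod.fst h1) (congrArg Prod.snd h1) he
      rw [← card_image_of_injOn hinj]
      refine WP8_int _ (z₀ / Q - (q * (α * i.1 ^ 2 + β * i.1 * i.2 + γ * i.2 ^ 2) + d₃ * i.1 + d₄ * i.2 + d₅)) (V / Q) (by positivity) ?_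
      intro z hz
      obtain ⟨t, ht1, rfl⟩ := mem_image.1 hz
      rw [mem_filter] at ht1
      obtain ⟨ht1, ht2⟩ := ht1
      subst ht2
      obtain ⟨-, -, -, b3⟩ := hh t ht1
      obtain ⟨-, -, -, -, -, a3, a4⟩ := hF t ht1
      have h1 : (zz t : ℝ) = (t.2.2.2 : ℝ) / Q - (q * (α * (mm t : ℝ) ^ 2 + β * mm t * gg t + γ * (gg t : ℝ) ^ 2) + d₃ * mm t + d₄ * gg t + d₅) := by
        rw [b3]; ring
      have h2 : z₀ / Q < (t.2.2.2 : ℝ) / Q := (div_lt_div_iff_of_pos_right hQ0).2 a3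
      have h3 : (t.2.2.2 : ℝ) / Q ≤ z₀ / Q + V / Q := by
        rw [← add_div]
        exact div_le_div_of_nonneg_right a4 hQ0.le
      rw [h1]
      constructor
      · simp only
        linarith
      · simp only
        linarith
    have hc1 := card_le_mul_card_image F _ hfib
    have himg : F.image (fun t : Tpl => (mm t, gg t)) ⊆ Icc (-(L : ℤ)) L ×ˢ Icc (-(L : ℤ)) L := by
      intro i hi
      obtain ⟨t, htF, rfl⟩ := mem_image.1 hi
      obtain ⟨-, -, ⟨s1, s2⟩, -⟩ := hh t htF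
      have s1' : |mm t| ≤ (L : ℤ) := by exact_mod_cast s1
      have s2' : |gg t| ≤ (L : ℤ) := by exact_mod_cast s2
      rw [abs_le] at s1' s2'
      exact mem_product.2 ⟨mem_Icc.2 s1', mem_Icc.2 s2'⟩
    have hc2 := card_le_card himg
    rw [card_product, Int.card_Icc] at hc2
    have h3 : ((L : ℤ) + 1 - -(L : ℤ)).toNat ≤ 3 * L := by omega
    have hc3 : (F.image (fun t : Tpl => (mm t, gg t))).card ≤ 3 * L * (3 * L) := hc2.trans (Nat.mul_le_mul h3 h3)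
    have hc4 : (F.card : ℝ) ≤ (⌊V / Q + 1⌋₊ : ℝ) * (3 * L * (3 * L)) := by
      have := hc1.trans (Nat.mul_le_mul_left _ hc3)
      exact_mod_cast this
    have hc5 : (⌊V / Q + 1⌋₊ : ℝ) ≤ V / Q + 1 := Nat.floor_le (by positivity)
    have hc6 : (F.card : ℝ) ≤ 9 * (L : ℝ) ^ 2 * (V / Q + 1) := by
      refine hc4.trans ?_
      have h7 : (0 : ℝ) ≤ 3 * L * (3 * L) := by positivity
      nlinarith [mul_le_mul_of_nonneg_right hc5 h7]
    have hempty : Ico 1 1 = (∅ : Finset ℕ) := by simp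
    rw [hempty, sum_empty, mul_zero, add_zero, Nat.cast_one, div_one]
    refine hc6.trans ?_
    have h8 : 0 ≤ (L : ℝ) ^ 2 * (V / Q + 1) := by positivity
    nlinarith [mul_nonneg hsC h8]
  have hQV : 4 * T * V ≤ Q := hTV
  have hVQ : V < Q := by nlinarith
  -- injectivity
  have hinj : Set.InjOn (fun t : Tpl => (mm t, gg t)) (F : Set Tpl) := by
    intro t htF t' htF' he
    have he1 : mm t = mm t' := congrArg Prod.fst he
    have he2 : gg t = gg t' := congrArg Prod.snd he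
    obtain ⟨b1, b2, -, b3⟩ := hh t htF
    obtain ⟨b1', b2', -, b3'⟩ := hh t' htF'
    obtain ⟨-, a2, -, -, -, a3, a4⟩ := hF t htF
    obtain ⟨-, a2', -, -, -, a3', a4'⟩ := hF t' htF'
    have h1 : ((t.2.2.2 : ℝ) - t'.2.2.2) / Q = ((zz t - zz t' : ℤ) : ℝ) := by
      rw [sub_div, b3, b3', he1, he2]
      push_cast
      ring
    have h2 : |((zz t - zz t' : ℤ) : ℝ)| < 1 := by
      rw [← h1, abs_div, abs_of_pos hQ0, div_lt_one hQ0, abs_lt]
      constructor <;> linarith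
    have h3 : zz t - zz t' = 0 := by
      have : |zz t - zz t'| < 1 := by exact_mod_cast h2
      exact Int.abs_lt_one_iff.1 this
    exact key t htF t' htF' he1 he2 (by linarith)
  -- the index set
  set s := Icc (-(2 * L : ℤ)) (2 * L) ×ˢ Icc (-(2 * L : ℤ)) (2 * L) with hs
  set X : ℤ × ℤ → ℝ := fun i => q * (α * i.1 ^ 2 + β * i.1 * i.2 + γ * i.2 ^ 2) +
    d₃ * i.1 + d₄ * i.2 + d₅ - (z₀ + V / 2) / Q with hX
  set w : ℤ × ℤ → ℝ := fun i => tw L i.1 * tw L i.2 with hw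
  have hw0 : ∀ i, 0 ≤ w i := fun i => mul_nonneg (WPC_tw_nonneg _ _) (WPC_tw_nonneg _ _)
  have hcard : (F.card : ℝ) ≤ ∑ i ∈ s.filter (fun i => nd (X i) * (8 * T) ≤ 1), w i := by
    rw [← card_image_of_injOn hinj]
    have h1 : F.image (fun t : Tpl => (mm t, gg t)) ⊆ s.filter (fun i => nd (X i) * (8 * T) ≤ 1) := by
      intro i hi
      obtain ⟨t, htF, rfl⟩ := mem_image.1 hi
      obtain ⟨b1, b2, ⟨s1, s2⟩, b3⟩ := hh t htF
      obtain ⟨-, -, -, -, -, a3, a4⟩ := hF t htF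
      have s1' : |mm t| ≤ (L : ℤ) := by exact_mod_cast s1
      have s2' : |gg t| ≤ (L : ℤ) := by exact_mod_cast s2
      rw [abs_le] at s1' s2'
      refine mem_filter.2 ⟨mem_product.2 ⟨mem_Icc.2 ⟨by simp only; omega, by simp only; omega⟩,
        mem_Icc.2 ⟨by simp only; omega, by simp only; omega⟩⟩, ?_⟩
      have h2 : X (mm t, gg t) - ((-zz t : ℤ) : ℝ) = ((t.2.2.2 : ℝ) - z₀ - V / 2) / Q := by
        have h3 : ((t.2.2.2 : ℝ) - z₀ - V / 2) / Q = (t.2.2.2 : ℝ) / Q - (z₀ + V / 2) / Q := by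
          ring
        rw [h3, b3]
        simp only [hX]
        push_cast
        ring
      have h4 : nd (X (mm t, gg t)) ≤ (V / 2) / Q := by
        unfold nd
        refine (round_le _ (-zz t)).trans ?_
        rw [h2, abs_div, abs_of_pos hQ0]
        refine div_le_div_of_nonneg_right ?_ hQ0.le
        rw [abs_le]
        constructor <;> linarith
      calc nd (X (mm t, gg t)) * (8 * T) ≤ (V / 2) / Q * (8 * T) :=
            mul_le_mul_of_nonneg_right h4 (by positivity)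
        _ = (4 * T * V) / Q := by ring
        _ ≤ 1 := by rw [div_le_one hQ0]; exact hQV
    have h5 : ((F.image (fun t : Tpl => (mm t, gg t))).card : ℝ) ≤
        ∑ i ∈ F.image (fun t : Tpl => (mm t, gg t)), w i := by
      rw [← nsmul_one, ← sum_const]
      refine sum_le_sum fun i hi => ?_
      obtain ⟨t, htF, rfl⟩ := mem_image.1 hi
      obtain ⟨-, -, ⟨s1, s2⟩, -⟩ := hh t htF
      have r1 := WPC_tw_ge hL s1
      have r2 := WPC_tw_ge hL s2
      show (1 : ℝ) ≤ tw L (mm t) * tw L (gg t)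
      nlinarith
    exact h5.trans (sum_le_sum_of_subset_of_nonneg h1 fun i _ _ => hw0 i)
  have hfj := hWFJ s w X T hT (fun i _ => hw0 i)
  -- the exponential sums
  have hts : ∀ h : ℕ, ‖∑ i ∈ s, (w i : ℂ) * e (h * X i)‖ ≤ √C₀ * (√((L : ℝ) * L) *
      √((nearPts L L ((h * es : ℕ) * α / ((n : ℝ) ^ 3 * k)) ((h * es : ℕ) * β / ((n : ℝ) ^ 3 * k))
          ((h * es : ℕ) * γ / ((n : ℝ) ^ 3 * k))).card : ℝ)) := by
    intro h
    set c : Fin 5 → ℝ := ![((h * es : ℕ) : ℝ) * α / ((n : ℝ) ^ 3 * k),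
      ((h * es : ℕ) : ℝ) * β / ((n : ℝ) ^ 3 * k), ((h * es : ℕ) : ℝ) * γ / ((n : ℝ) ^ 3 * k),
      h * d₃, h * d₄] with hc
    have hc0 : c 0 = ((h * es : ℕ) : ℝ) * α / ((n : ℝ) ^ 3 * k) := rfl
    have hc1 : c 1 = ((h * es : ℕ) : ℝ) * β / ((n : ℝ) ^ 3 * k) := rfl
    have hc2 : c 2 = ((h * es : ℕ) : ℝ) * γ / ((n : ℝ) ^ 3 * k) := rfl
    have hc3 : c 3 = h * d₃ := rfl
    have hc4 : c 4 = h * d₄ := rfl
    have h1 : ∑ i ∈ s, (w i : ℂ) * e (h * X i) = TS L L c * e (h * (d₅ - (z₀ + V / 2) / Q)) := by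
      unfold TS
      rw [hs, sum_product, sum_mul]
      refine sum_congr rfl fun m _ => ?_
      rw [sum_mul]
      refine sum_congr rfl fun g _ => ?_
      have h2 : (h : ℝ) * X (m, g) = (c 0 * m ^ 2 + c 1 * m * g + c 2 * g ^ 2 + c 3 * m + c 4 * g) +
          h * (d₅ - (z₀ + V / 2) / Q) := by
        rw [hc0, hc1, hc2, hc3, hc4]
        simp only [hX, hq]
        push_cast
        ring
      rw [h2, WPC_e_add]
      simp only [hw]
      ring
    rw [h1, norm_mul, WPC_e_norm, mul_one]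
    have h3 := hW L L c hL hL
    rw [hc0, hc1, hc2] at h3
    have hLL : (0 : ℝ) ≤ (L : ℝ) * L := by positivity
    refine abs_le_of_sq_le_sq' ?_ (by positivity) |>.2
    rw [mul_pow, mul_pow, Real.sq_sqrt (by linarith), Real.sq_sqrt hLL, Real.sq_sqrt (by positivity)]
    refine h3.trans (le_of_eq ?_)
    ring
  have hsum := WPC_sum hL hL
  set S := ∑ h ∈ Ico 1 T, √((nearPts L L ((h * es : ℕ) * α / ((n : ℝ) ^ 3 * k)) ((h * es : ℕ) * β / ((n : ℝ) ^ 3 * k))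
          ((h * es : ℕ) * γ / ((n : ℝ) ^ 3 * k))).card : ℝ) with hS
  have h1 : ∑ h ∈ Ico 1 T, ‖∑ i ∈ s, (w i : ℂ) * e (h * X i)‖ ≤ √C₀ * (√((L : ℝ) * L) * S) := by
    rw [hS, mul_sum, mul_sum]
    exact sum_le_sum fun h _ => hts h
  have h2 : (F.card : ℝ) ≤ 2 / T * (225 * ((L : ℝ) * L) + 2 * (√C₀ * (√((L : ℝ) * L) * S))) := by
    refine hcard.trans (hfj.trans ?_)
    refine mul_le_mul_of_nonneg_left ?_ (by positivity)
    exact add_le_add hsum (mul_le_mul_of_nonneg_left h1 (by norm_num))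
  rw [Real.sqrt_mul_self (by linarith)] at h2
  refine h2.trans ?_
  have e1 : 2 / T * (225 * ((L : ℝ) * L) + 2 * (√C₀ * (L * S))) = 450 * (L : ℝ) ^ 2 * (1 / T) + 4 * √C₀ * L / T * S := by
    field_simp
    ring
  rw [e1]
  have g1 : 0 ≤ (L : ℝ) ^ 2 * (V / Q) := by positivity
  have g2 : 0 ≤ (L : ℝ) ^ 2 * (1 / T) := by positivity
  have g3 : 0 ≤ (L : ℝ) / T * S := mul_nonneg (by positivity) hS0'
  have e2 : (450 + 4 * √C₀) * (L : ℝ) ^ 2 * (V / Q + 1 / T) + (450 + 4 * √C₀) * L / T * S =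
      (450 + 4 * √C₀) * ((L : ℝ) ^ 2 * (V / Q)) + (450 + 4 * √C₀) * ((L : ℝ) ^ 2 * (1 / T)) + (450 + 4 * √C₀) * (L / T * S) := by
    ring
  rw [e2]
  have e3 : 450 * (L : ℝ) ^ 2 * (1 / T) + 4 * √C₀ * L / T * S = 450 * ((L : ℝ) ^ 2 * (1 / T)) + 4 * √C₀ * (L / T * S) := by ring
  rw [e3]
  have g4 := mul_nonneg hsC g1
  have g5 := mul_nonneg hsC g2
  nlinarith

end Pool.Agent.T8
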